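import Mathlib
import Pool.Agent.H.MP_466bd8_al.Cas

set_option autoImplicit false

namespace Pool.Agent.Results.MP_3f01e7_al.T1NotT2

open Pool.Agent.H.MP_466bd8_al

theorem result : ∃ (X D : Type) (_ : TopologicalSpace X) (_ : MeasurableSpace X)
    (_ : TopologicalSpace D) (_ : MeasurableSpace D), Nice X ∧ Nice D ∧
      ∃ C : CAS X D, T1 C ∧ ¬ T2 C :=
  ⟨G, G, _, _, _, _, nice, nice, gcas, gT1, notT2 _ rfl⟩

end Pool.Agent.Results.MP_3f01e7_al.T1NotT2
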